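import Pool.Agent.H71.PX.Targets

/-!
# The intended model: the tasks for two climbers
-/

set_option autoImplicit false

namespace Pool.Agent.H18.PX.MC

open Pool.Agent.H71.PX Pool.Agent.H8.PL

theorem pf_MC : T_MC := by
  intro Q U Hh Vv n t hG x y
  obtain ⟨⟨j, hj⟩, ⟨i, hi⟩⟩ := x
  obtain ⟨⟨l, hl⟩, ⟨k, hk⟩⟩ := y
  intro h1 h2
  have e1 : j < i := by simpa [Mo] using h1.2
  have e2 : l < k := by simpa [Mo] using h2.2
  -- the vacuous parts
  have vac : ∀ z, TkE (Mo n t) (⟨j, hj⟩, ⟨i, hi⟩) (⟨l, hl⟩, ⟨k, hk⟩) z →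
      TkCC (Mo n t) (⟨j, hj⟩, ⟨i, hi⟩) (⟨l, hl⟩, ⟨k, hk⟩) z →
      Tk (Mo n t) Hh Vv (⟨j, hj⟩, ⟨i, hi⟩) (⟨l, hl⟩, ⟨k, hk⟩) z := by
    intro z hE hC
    refine ⟨hE, fun h => absurd h h1.1, fun h => absurd h h1.1, fun _ h => absurd h h2.1,
      fun h => absurd h1.2 h.2, hC, fun _ h => absurd h2.2 h.2, fun h => absurd h1.2 h.2,
      fun h => absurd h1.2 h.2⟩
  by_cases c1' : i = k ∧ j = l
  · obtain ⟨rfl, rfl⟩ := c1'
    refine ⟨(⟨0, by omega⟩, ⟨0, by omega⟩), vac _ ?_ ?_⟩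
    · intro _
      refine ⟨fun h => absurd h h1.1, fun h => absurd h h1.1, fun _ => ⟨rfl, ?_⟩⟩
      simp [Mo, c1]
    · intro _ _
      refine ⟨fun _ h => absurd h (lt_irrefl _), fun _ h => absurd h (lt_irrefl _), fun h => ?_,
        fun h => ?_, fun h => absurd rfl h⟩
      · simp only [Mo, c1, c2] at h
        omega
      · simp only [Mo, c1, c2] at h
        omega
  · have hE : ∀ z, TkE (Mo n t) (⟨j, hj⟩, ⟨i, hi⟩) (⟨l, hl⟩, ⟨k, hk⟩) z := by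
      intro z h
      simp only [Prod.mk.injEq, Fin.mk.injEq] at h
      omega
    by_cases c2' : ((i = k ∧ l < j) ∨ i = l) ∧ i ≠ j + 1
    · refine ⟨(⟨j + 1, by omega⟩, ⟨i, hi⟩), vac _ (hE _) ?_⟩
      intro _ _
      simp only [Mo, St.cl, St.Cb, St.Sep, c1, c2, cc, if_true, Bool.false_eq_true, if_false,
        Fin.mk_lt_mk, Fin.mk.injEq, Prod.mk.injEq, ne_eq, Bool.exists_bool]
      omega
    · by_cases c3' : (i = k ∧ j < l) ∨ k = j
      · refine ⟨(⟨l, hl⟩, ⟨l, hl⟩), vac _ (hE _) ?_⟩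
        intro _ _
        simp only [Mo, St.cl, St.Cb, St.Sep, c1, c2, cc, if_true, Bool.false_eq_true, if_false,
          Fin.mk_lt_mk, Fin.mk.injEq, Prod.mk.injEq, ne_eq, Bool.exists_bool, true_and]
        omega
      · refine ⟨(⟨i, hi⟩, ⟨i, hi⟩), vac _ (hE _) ?_⟩
        intro _ _
        simp only [Mo, St.cl, St.Cb, St.Sep, c1, c2, cc, if_true, Bool.false_eq_true, if_false,
          Fin.mk_lt_mk, Fin.mk.injEq, Prod.mk.injEq, ne_eq, Bool.exists_bool, true_and]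
        omega

end Pool.Agent.H18.PX.MC
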