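import Pool.Agent.H71.PX.Targets

/-!
# The intended model: the tasks for a pair and a number
-/

set_option autoImplicit false

namespace Pool.Agent.H18.PX.MG

open Pool.Agent.H71.PX Pool.Agent.H8.PL

theorem pf_MG : T_MG := by
  intro Q U Hh Vv n t hG x y
  obtain ⟨hU, hH, hV⟩ := hG
  obtain ⟨⟨j, hj⟩, ⟨k, hk⟩⟩ := x
  obtain ⟨⟨w, hw⟩, ⟨w', hw'⟩⟩ := y
  intro h1 h2
  have e1 : ¬ j = k := by simpa [Mo] using h1
  have e2 : w = w' := by simpa [Mo] using h2
  subst e2
  -- the vacuous parts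
  have vac : ∀ z, TkC (Mo n t) (⟨j, hj⟩, ⟨k, hk⟩) (⟨w, hw⟩, ⟨w, hw'⟩) z →
      TkG (Mo n t) Hh Vv (⟨j, hj⟩, ⟨k, hk⟩) (⟨w, hw⟩, ⟨w, hw'⟩) z →
      Tk (Mo n t) Hh Vv (⟨j, hj⟩, ⟨k, hk⟩) (⟨w, hw⟩, ⟨w, hw'⟩) z := by
    intro z hC hG
    refine ⟨fun h => absurd (h ▸ h2) h1, fun h => absurd h h1, fun h => absurd h h1, hC, hG,
      fun _ h => absurd h2 h.1, fun _ h => absurd h2 h.1, fun _ h => absurd h2 h.1,
      fun _ h => absurd h2 h.1⟩
  rcases Nat.lt_or_gt_of_ne e1 with hjk | hjk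
  · -- a climber
    have hg : ∀ z, TkG (Mo n t) Hh Vv (⟨j, hj⟩, ⟨k, hk⟩) (⟨w, hw⟩, ⟨w, hw'⟩) z := by
      intro z h
      refine absurd ?_ h.2
      simpa [Mo] using hjk
    by_cases c1' : w = j ∧ w ≠ 0
    · refine ⟨(⟨0, by omega⟩, ⟨w, hw⟩), vac _ ?_ (hg _)⟩
      intro _ _
      simp only [Mo, St.cl, St.Cb, c1, c2, cc, max_self, if_true, Bool.false_eq_true, if_false,
        Fin.mk_lt_mk, Fin.mk.injEq]
      omega
    · by_cases c2' : w = k ∧ k ≠ j + 1
      · refine ⟨(⟨j + 1, by omega⟩, ⟨k, hk⟩), vac _ ?_ (hg _)⟩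
        intro _ _
        simp only [Mo, St.cl, St.Cb, c1, c2, cc, max_self, if_true, Bool.false_eq_true, if_false,
          Fin.mk_lt_mk, Fin.mk.injEq]
        omega
      · refine ⟨(⟨j, hj⟩, ⟨j, hj⟩), vac _ ?_ (hg _)⟩
        intro _ _
        simp only [Mo, St.cl, St.Cb, c1, c2, cc, max_self, if_true, Bool.false_eq_true, if_false,
          true_and]
        omega
  · -- a ground pair
    have hc : ∀ z, TkC (Mo n t) (⟨j, hj⟩, ⟨k, hk⟩) (⟨w, hw⟩, ⟨w, hw'⟩) z := by
      intro z h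
      have h' : j < k := by simpa [Mo] using h.2
      omega
    by_cases c1' : (w = j ∨ w = k) ∧ w ≠ 0
    · refine ⟨(⟨0, by omega⟩, ⟨w, hw⟩), vac _ (hc _) ?_⟩
      intro _ _
      refine ⟨?_, ?_⟩
      · simp only [Mo, St.cl, c1, c2, cc, max_self, if_true, Bool.false_eq_true, if_false,
          Fin.mk_lt_mk, Fin.mk.injEq, Bool.exists_bool, Bool.forall_bool]
        omega
      · intro h3 h4
        simp only [Mo, c1, c2, cc, max_self, if_true, Bool.false_eq_true, if_false] at h3 h4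
        omega
    · by_cases c2' : w + 1 = j ∧ w ≠ k
      · obtain ⟨rfl, c3⟩ := c2'
        have m1 : max (w + 1) k = w + 1 := by omega
        have m2 : min (w + 1) k = k := by omega
        refine ⟨(⟨k, hk⟩, ⟨k, hk⟩), vac _ (hc _) ?_⟩
        intro _ _
        refine ⟨?_, ?_⟩
        · simp only [Mo, St.cl, c1, c2, cc, max_self, if_true, Bool.false_eq_true, if_false,
            Fin.mk_lt_mk, Bool.exists_bool, Bool.forall_bool]
          omega
        · intro _ _
          simp only [Mo, c1, c2, cc, max_self, if_true, m1, m2]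
          refine ⟨trivial, trivial, ?_⟩
          intro q q'
          refine ⟨?_, ?_⟩
          · rintro rfl rfl
            exact hH w k hj hk
          · rintro rfl rfl
            exact hV k w hk hj
      · refine ⟨(⟨j, hj⟩, ⟨j, hj⟩), vac _ (hc _) ?_⟩
        intro _ _
        refine ⟨?_, ?_⟩
        · simp only [Mo, St.cl, c1, c2, cc, max_self, if_true, Bool.false_eq_true, if_false,
            Fin.mk_lt_mk, Bool.exists_bool, Bool.forall_bool]
          omega
        · intro h3 h4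
          simp only [Mo, c1, c2, cc, max_self, if_true, Bool.false_eq_true, if_false] at h3 h4
          omega

end Pool.Agent.H18.PX.MG
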