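import Pool.Agent.H71.PX.Targets

/-!
# The intended model: the tasks for two numbers
-/

set_option autoImplicit false

namespace Pool.Agent.H18.PX.MN

open Pool.Agent.H71.PX Pool.Agent.H8.PL

theorem pf_MN : T_MN := by
  intro Q U Hh Vv n t hG x y
  obtain ⟨hU, hH, hV⟩ := hG
  obtain ⟨⟨i, hi⟩, ⟨i', hi'⟩⟩ := x
  obtain ⟨⟨j, hj⟩, ⟨j', hj'⟩⟩ := y
  intro h1 h2
  have e1 : i = i' := by simpa [Mo] using h1
  have e2 : j = j' := by simpa [Mo] using h2
  subst e1 e2
  -- the vacuous parts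
  have vac : ∀ z, TkE (Mo n t) (⟨i, hi⟩, ⟨i, hi'⟩) (⟨j, hj⟩, ⟨j, hj'⟩) z →
      TkN (Mo n t) Hh Vv (⟨i, hi⟩, ⟨i, hi'⟩) (⟨j, hj⟩, ⟨j, hj'⟩) z →
      Tk (Mo n t) Hh Vv (⟨i, hi⟩, ⟨i, hi'⟩) (⟨j, hj⟩, ⟨j, hj'⟩) z := by
    intro z hE hN
    refine ⟨hE, hN, fun _ h => absurd h2 h, fun h => absurd h1 h.1, fun h => absurd h1 h.1,
      fun h => absurd h1 h.1, fun h => absurd h1 h.1, fun h => absurd h1 h.1, fun h => absurd h1 h.1⟩
  rcases Nat.lt_trichotomy i j with hij | hij | hij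
  · -- the successor
    have hs : i + 1 < n := by omega
    refine ⟨(⟨i + 1, hs⟩, ⟨i + 1, hs⟩), vac _ ?_ ?_⟩
    · intro h
      simp only [Prod.mk.injEq, Fin.mk.injEq] at h
      omega
    · intro _ _
      simp only [Mo, c1, c2, Prod.mk.injEq, Fin.mk.injEq, max_self, and_self]
      refine ⟨fun _ => ⟨trivial, trivial, by omega, ?_⟩, fun h => by omega⟩
      intro q q'
      refine ⟨?_, ?_⟩
      · rintro rfl rfl
        exact hH i j hs hj
      · rintro rfl rfl
        exact hV j i hj hs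
  · subst hij
    by_cases ht : i + 1 = n
    · refine ⟨(⟨0, by omega⟩, ⟨0, by omega⟩), vac _ ?_ ?_⟩
      · intro _
        refine ⟨fun _ h => absurd ?_ h, fun _ _ => ⟨rfl, ?_⟩, fun h => absurd h1 h⟩
        · simpa [Mo, c1] using ht
        · simp [Mo, c1]
      · intro _ _
        simp only [Mo, c1, c2, max_self, lt_irrefl]
        exact ⟨fun h => h.elim, fun h => h.elim⟩
    · refine ⟨(⟨i + 1, by omega⟩, ⟨i + 1, by omega⟩), vac _ ?_ ?_⟩
      · intro _
        refine ⟨fun _ _ => ⟨rfl, ?_⟩, fun _ h => absurd ?_ ht, fun h => absurd h1 h⟩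
        · simp [Mo, c1]
        · simpa [Mo, c1] using h
      · intro _ _
        simp only [Mo, c1, c2, max_self, lt_irrefl]
        exact ⟨fun h => h.elim, fun h => h.elim⟩
  · refine ⟨(⟨i, hi⟩, ⟨j, hj⟩), vac _ ?_ ?_⟩
    · intro h
      simp only [Prod.mk.injEq, Fin.mk.injEq] at h
      omega
    · intro _ _
      have m1 : max i j = i := by omega
      have m2 : min i j = j := by omega
      simp only [Mo, St.gp, c1, c2, cc, Fin.mk.injEq, Fin.mk_lt_mk, max_self, if_true,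
        Bool.false_eq_true, if_false, m1, m2]
      refine ⟨fun h => by omega, fun _ => ⟨by omega, trivial, trivial, fun q => ⟨trivial, trivial⟩⟩⟩

end Pool.Agent.H18.PX.MN
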