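import Pool.Agent.H71.PX.Targets

/-!
# The intended model: the tasks for a number and a pair
-/

set_option autoImplicit false

namespace Pool.Agent.H18.PX.MP

open Pool.Agent.H71.PX Pool.Agent.H8.PL

theorem pf_MP : T_MP := by
  intro Q U Hh Vv n t hG x y
  obtain ⟨⟨i, hi⟩, ⟨i', hi'⟩⟩ := x
  obtain ⟨⟨j, hj⟩, ⟨k, hk⟩⟩ := y
  intro h1 h2
  have e1 : i = i' := by simpa [Mo] using h1
  have e2 : ¬ j = k := by simpa [Mo] using h2
  subst e1
  -- the vacuous parts
  have vac : ∀ z, TkP (Mo n t) (⟨i, hi⟩, ⟨i, hi'⟩) (⟨j, hj⟩, ⟨k, hk⟩) z →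
      Tk (Mo n t) Hh Vv (⟨i, hi⟩, ⟨i, hi'⟩) (⟨j, hj⟩, ⟨k, hk⟩) z := by
    intro z hP
    refine ⟨fun h => absurd (h ▸ h1) h2, fun _ h => absurd h h2, hP, fun h => absurd h1 h.1,
      fun h => absurd h1 h.1, fun h => absurd h1 h.1, fun h => absurd h1 h.1, fun h => absurd h1 h.1,
      fun h => absurd h1 h.1⟩
  by_cases c : i < max j k
  · refine ⟨(⟨i + 1, by omega⟩, ⟨i + 1, by omega⟩), vac _ ?_⟩
    intro _ _
    simp only [Mo, c1, c2, cc, max_self, Bool.forall_bool, if_true, Bool.false_eq_true, if_false,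
      true_and]
    omega
  · by_cases d : j < k ∧ i = k
    · obtain ⟨d1, d2⟩ := d
      refine ⟨(⟨j, hj⟩, ⟨j, hj⟩), vac _ ?_⟩
      intro _ _
      simp only [Mo, c1, c2, cc, max_self, Bool.forall_bool, if_true, Bool.false_eq_true, if_false,
        true_and, Fin.mk_lt_mk]
      omega
    · refine ⟨(⟨i, hi⟩, ⟨i, hi'⟩), vac _ ?_⟩
      intro _ _
      simp only [Mo, c1, c2, cc, max_self, Bool.forall_bool, if_true, Bool.false_eq_true, if_false,
        true_and, Fin.mk_lt_mk]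
      omega

end Pool.Agent.H18.PX.MP
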