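import Pool.Agent.H71.PX.Targets

/-!
# The intended model satisfies the universal axioms
-/

set_option autoImplicit false

namespace Pool.Agent.H18.PX.MU

open Pool.Agent.H71.PX Pool.Agent.H8.PL

theorem eqd (b : Bool) (p : Prop) [Decidable p] (h : b = true ↔ p) : b = decide p := by
  cases b <;> simp at h ⊢ <;> exact h

theorem pf_MU : T_MU := by
  intro Q U Hh Vv n t hG x y
  obtain ⟨hU, hH, hV⟩ := hG
  obtain ⟨⟨i, hi⟩, ⟨j, hj⟩⟩ := x
  obtain ⟨⟨k, hk⟩, ⟨l, hl⟩⟩ := y
  refine ⟨?_, ?_, ?_⟩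
  · intro h1 h2
    simp only [Mo, Fin.mk.injEq] at h1 h2
    subst h1 h2
    simp only [Mo, c1, c2, Prod.mk.injEq, Fin.mk.injEq, max_self, ne_eq, and_self, exists_eq']
    refine ⟨by omega, by omega, by omega, by omega, by omega, trivial, ?_, ?_⟩
    · intro q hq b1 b2 b3 b4 h1 h2 h3 h4
      rw [eqd b1 _ h1, eqd b2 _ h2, eqd b3 _ h3, eqd b4 _ h4, ← hq]
      exact hU i hi k hk
    · intro hs q q'
      subst hs
      refine ⟨?_, ?_⟩
      · rintro rfl rfl
        exact hH i i hk hi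
      · rintro rfl rfl
        exact hV i i hi hk
  · intro h1 h2
    simp only [Mo, Fin.mk.injEq] at h1 h2
    subst h1
    simp only [Mo, c1, c2, cc, Prod.mk.injEq, Fin.mk.injEq, max_self, Bool.forall_bool, Fin.mk_lt_mk,
      if_true, Bool.false_eq_true, if_false]
    omega
  · intro h1 h2
    simp only [Mo, St.cl, Fin.mk.injEq, Fin.mk_lt_mk] at h1 h2
    simp only [Mo, c1, c2, cc, Prod.mk.injEq, Fin.mk.injEq, ne_eq]
    omega

end Pool.Agent.H18.PX.MU
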