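import Pool.Agent.H71.PX.Targets

/-!
# The intended model: the tasks for two pairs, one of them a ground pair
-/

set_option autoImplicit false

namespace Pool.Agent.H18.PX.MX

open Pool.Agent.H71.PX Pool.Agent.H8.PL

theorem pf_MX : T_MX := by
  intro Q U Hh Vv n t hG x y
  obtain ⟨⟨a, ha⟩, ⟨b, hb⟩⟩ := x
  obtain ⟨⟨c, hc⟩, ⟨d, hd⟩⟩ := y
  intro h1 h2 h3
  have e1 : ¬ a = b := by simpa [Mo] using h1
  have e2 : ¬ c = d := by simpa [Mo] using h2
  have e3 : b < a ∨ d < c := by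
    rcases h3 with h3 | h3
    · left
      have h := h3.2
      simp only [Mo, Fin.mk_lt_mk] at h
      omega
    · right
      have h := h3.2
      simp only [Mo, Fin.mk_lt_mk] at h
      omega
  -- the vacuous parts
  have vac : ∀ z, TkE (Mo n t) (⟨a, ha⟩, ⟨b, hb⟩) (⟨c, hc⟩, ⟨d, hd⟩) z →
      TkGG (Mo n t) (⟨a, ha⟩, ⟨b, hb⟩) (⟨c, hc⟩, ⟨d, hd⟩) z →
      Tk (Mo n t) Hh Vv (⟨a, ha⟩, ⟨b, hb⟩) (⟨c, hc⟩, ⟨d, hd⟩) z := by
    intro z hE hG
    refine ⟨hE, fun h => absurd h h1, fun h => absurd h h1, fun _ h => absurd h h2,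
      fun _ h => absurd h h2, fun h h' => ?_, hG⟩
    rcases h3 with h3 | h3
    · exact absurd h.2 h3.2
    · exact absurd h'.2 h3.2
  by_cases c1' : a = c ∧ b = d
  · obtain ⟨rfl, rfl⟩ := c1'
    refine ⟨(⟨0, by omega⟩, ⟨0, by omega⟩), vac _ ?_ ?_⟩
    · intro _
      refine ⟨fun h => absurd h h1, fun h => absurd h h1, fun _ => ⟨rfl, ?_⟩⟩
      simp [Mo, c1]
    · exact ⟨fun h h' => absurd h.2 h'.2, fun h h' => absurd h'.2 h.2, fun _ _ h => absurd rfl h⟩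
  · have hE : ∀ z, TkE (Mo n t) (⟨a, ha⟩, ⟨b, hb⟩) (⟨c, hc⟩, ⟨d, hd⟩) z := by
      intro z h
      simp only [Prod.mk.injEq, Fin.mk.injEq] at h
      omega
    by_cases c2' : a < b ∧ (b = c ∨ b = d) ∧ b ≠ a + 1
    · refine ⟨(⟨a + 1, by omega⟩, ⟨b, hb⟩), vac _ (hE _) ?_⟩
      simp only [TkGG, Mo, St.cl, St.gp, St.Cb, St.Sep, c1, c2, cc, if_true, Bool.false_eq_true,
        if_false, Fin.mk_lt_mk, Fin.mk.injEq, Prod.mk.injEq, ne_eq, Bool.exists_bool,
        Bool.forall_bool]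
      omega
    · by_cases c3' : b < a ∧ c < d
      · refine ⟨(⟨c, hc⟩, ⟨c, hc⟩), vac _ (hE _) ?_⟩
        simp only [TkGG, Mo, St.cl, St.gp, St.Cb, St.Sep, c1, c2, cc, if_true, Bool.false_eq_true,
          if_false, Fin.mk_lt_mk, Fin.mk.injEq, Prod.mk.injEq, ne_eq, Bool.exists_bool,
          Bool.forall_bool, true_and]
        omega
      · by_cases c4' : a = c
        · refine ⟨(⟨b, hb⟩, ⟨b, hb⟩), vac _ (hE _) ?_⟩
          simp only [TkGG, Mo, St.cl, St.gp, St.Cb, St.Sep, c1, c2, cc, if_true,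
            Bool.false_eq_true, if_false, Fin.mk_lt_mk, Fin.mk.injEq, Prod.mk.injEq, ne_eq,
            Bool.exists_bool, Bool.forall_bool, true_and]
          omega
        · refine ⟨(⟨a, ha⟩, ⟨a, ha⟩), vac _ (hE _) ?_⟩
          simp only [TkGG, Mo, St.cl, St.gp, St.Cb, St.Sep, c1, c2, cc, if_true,
            Bool.false_eq_true, if_false, Fin.mk_lt_mk, Fin.mk.injEq, Prod.mk.injEq, ne_eq,
            Bool.exists_bool, Bool.forall_bool, true_and]
          omega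

end Pool.Agent.H18.PX.MX
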